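import Pool.Agent.MP_3ee8cb_gt.DZJ.Alg

/-! The Jacobian estimate when the touching covector depends on the direction. -/

namespace Pool.Agent.MP_3ee8cb_gt.DLJ

open Set MeasureTheory CR DZJ
open scoped RealInnerProductSpace

/-- The touching inequality evaluated at the rotated direction. -/
theorem eval {n : ℕ} {L : E n →L[ℝ] E n} {ε : ℝ} {u : E n} {l : E n →L[ℝ] ℝ} {Q : Prop}
    (e f : OrthonormalBasis (Fin n) ℝ (E n)) (r : Fin n → ℝ)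
    (hL : ∀ i, L (e i) = r i ^ 2 • f i) (hu : ‖u‖ = 1)
    (h : ∀ a : E n, ∃ (c : ℝ) (ζ : E n), 1 ≤ c ∧ ⟪ζ, u⟫ = 0 ∧ ‖ζ‖ ^ 2 ≤ ε ^ 2 * (c - 1) ∧
      (c = 1 → Q) ∧ l a ≤ ‖a‖ - ⟪c • u + ζ, L a⟫) :
    ∃ (c : ℝ) (z : Fin n → ℝ), 1 ≤ c ∧ (c = 1 → Q) ∧ ∑ i, z i * ⟪u, f i⟫ = 0 ∧
      ∑ i, z i ^ 2 ≤ ε ^ 2 * (c - 1) ∧ ∑ i, l (e i) * ⟪u, f i⟫ ≤
        1 - (c * ∑ i, r i ^ 2 * ⟪u, f i⟫ ^ 2 + ∑ i, r i ^ 2 * (z i * ⟪u, f i⟫)) := by
  obtain ⟨c, ζ, h0, h1, h2, hQ, h4⟩ := h (∑ i, ⟪u, f i⟫ • e i)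
  refine ⟨c, fun i => ⟪ζ, f i⟫, h0, hQ, ?_, ?_, ?_⟩
  · rw [← h1, ← f.sum_inner_mul_inner ζ u]
    exact Finset.sum_congr rfl fun i _ => by rw [real_inner_comm u (f i)]
  · rw [f.sum_sq_inner_left ζ]
    exact h2
  · have h5 : ‖∑ i, ⟪u, f i⟫ • e i‖ = 1 := by
      have h6 : ‖∑ i, ⟪u, f i⟫ • e i‖ ^ 2 = 1 := by
        rw [← e.sum_sq_inner_left]
        simp only [e.orthonormal.inner_left_fintype, conj_trivial]
        rw [f.sum_sq_inner_left u, hu, one_pow]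
      exact (pow_eq_one_iff_of_nonneg (norm_nonneg _) two_ne_zero).1 h6
    rw [h5, map_sum, map_sum, inner_sum] at h4
    simp only [map_smul, hL, smul_eq_mul, inner_add_left, real_inner_smul_left,
      real_inner_smul_right] at h4
    rw [Finset.mul_sum, ← Finset.sum_add_distrib]
    refine le_trans (le_of_eq ?_) (h4.trans (le_of_eq ?_))
    · exact Finset.sum_congr rfl fun i _ => mul_comm _ _
    · congr 1
      exact Finset.sum_congr rfl fun i _ => by ring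

/-- The Jacobian estimate. -/
theorem alg {n : ℕ} {W : Type*} [MeasurableSpace W] (μ : Measure W) [IsFiniteMeasure μ]
    (u : W → E n) (l : W → E n →L[ℝ] ℝ) (L : E n →L[ℝ] E n) (ε : ℝ) (Q : W → Prop)
    (hu : ∀ᵐ w ∂μ, ‖u w‖ = 1) (hum : AEStronglyMeasurable u μ)
    (hiso : ∀ a b : E n, ∫ w, ⟪u w, a⟫ * ⟪u w, b⟫ ∂μ = ⟪a, b⟫)
    (hint : ∀ e a : E n, Integrable (fun w => l w e * ⟪u w, a⟫) μ)
    (hzero : ∀ e a : E n, ∫ w, l w e * ⟪u w, a⟫ ∂μ = 0) (hε : n * ε ^ 2 ≤ 1 / 4)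
    (hok : ∀ᵐ w ∂μ, ∀ a : E n, ∃ (c : ℝ) (ζ : E n), 1 ≤ c ∧ ⟪ζ, u w⟫ = 0 ∧
      ‖ζ‖ ^ 2 ≤ ε ^ 2 * (c - 1) ∧ (c = 1 → Q w) ∧ l w a ≤ ‖a‖ - ⟪c • u w + ζ, L a⟫) :
    |L.det| ≤ 1 ∧ (|L.det| = 1 → (∀ e, ‖L e‖ = ‖e‖) ∧ ∀ᵐ w ∂μ, Q w) := by
  rcases eq_or_ne L.det 0 with h0 | h0
  · rw [h0, abs_zero]
    exact ⟨zero_le_one, fun h => absurd h zero_ne_one⟩
  obtain ⟨e, f, s, hs, hL, hdet⟩ := nuc_svd L h0
  obtain ⟨r, hr, hrs⟩ : ∃ r : Fin n → ℝ, (∀ i, 0 < r i) ∧ ∀ i, s i = r i ^ 2 :=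
    ⟨fun i => √(s i), fun i => Real.sqrt_pos.2 (hs i), fun i => (Real.sq_sqrt (hs i).le).symm⟩
  simp only [hrs] at hL hdet
  set D : ℝ := ∑ i, (r i - 1) ^ 2 with hD
  have hD0 : 0 ≤ D := Finset.sum_nonneg fun i _ => sq_nonneg _
  have hx : ∀ i, Integrable (fun w => ⟪u w, f i⟫ ^ 2) μ := fun i => by
    refine Integrable.of_bound ((hum.inner aestronglyMeasurable_const).pow 2) 1 ?_
    filter_upwards [hu] with w hw
    have h1 := abs_real_inner_le_norm (u w) (f i)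
    rw [hw, f.orthonormal.1 i, mul_one] at h1
    rw [norm_pow, Real.norm_eq_abs]
    exact pow_le_one₀ (abs_nonneg _) h1
  have hx1 : ∀ i, ∫ w, ⟪u w, f i⟫ ^ 2 ∂μ = 1 := fun i => by
    simp only [sq]
    rw [hiso, real_inner_self_eq_norm_sq, f.orthonormal.1 i, one_pow]
  have hm : μ.real univ = n := by
    have h1 : ∫ w, ∑ i, ⟪u w, f i⟫ ^ 2 ∂μ = ∫ _w, (1 : ℝ) ∂μ := by
      refine integral_congr_ae ?_
      filter_upwards [hu] with w hw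
      rw [f.sum_sq_inner_left, hw, one_pow]
    rw [integral_finsetSum _ fun i _ => hx i] at h1
    simpa [hx1] using h1.symm
  have hgi : Integrable (fun w => ∑ i, l w (e i) * ⟪u w, f i⟫) μ :=
    integrable_finsetSum _ fun i _ => hint _ _
  have hg0 : ∫ w, ∑ i, l w (e i) * ⟪u w, f i⟫ ∂μ = 0 := by
    rw [integral_finsetSum _ fun i _ => hint _ _]
    simp only [hzero, Finset.sum_const_zero]
  have hai : Integrable (fun w => ∑ i, r i ^ 2 * ⟪u w, f i⟫ ^ 2) μ :=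
    integrable_finsetSum _ fun i _ => (hx i).const_mul _
  have ha : ∫ w, ∑ i, r i ^ 2 * ⟪u w, f i⟫ ^ 2 ∂μ = ∑ i, r i ^ 2 := by
    rw [integral_finsetSum _ fun i _ => (hx i).const_mul _]
    simp only [integral_const_mul, hx1, mul_one]
  have hle : ∀ᵐ w ∂μ, ∑ i, l w (e i) * ⟪u w, f i⟫ ≤
      (1 + 2 * ε ^ 2 * D) - ∑ i, r i ^ 2 * ⟪u w, f i⟫ ^ 2 := by
    filter_upwards [hu, hok] with w hw hc
    obtain ⟨c, z, h0, -, h1, h2, h3⟩ := eval e f r hL hw hc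
    have : Nonempty (Fin n) := by
      have h4 : ∑ i, ⟪u w, f i⟫ ^ 2 ≠ 0 := by
        rw [f.sum_sq_inner_left, hw]
        norm_num
      exact ⟨(Finset.nonempty_of_sum_ne_zero h4).choose⟩
    have h5 := alg_pt r (fun i => ⟪u w, f i⟫) z c ε (fun i => (hr i).le) h0 h1 h2
    linarith
  have htr := integral_mono_ae hgi ((integrable_const _).sub hai) hle
  rw [hg0] at htr
  simp only [Pi.sub_apply] at htr
  rw [integral_sub (integrable_const _) hai, ha, integral_const, hm, smul_eq_mul] at htr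
  have hlog := alg_log r hr (by
    rw [Fintype.card_fin]
    nlinarith [mul_le_mul_of_nonneg_right hε hD0])
  rw [hdet]
  refine ⟨hlog.1, fun h1 => ?_⟩
  have hr1 := hlog.2 h1
  have hL1 : ∀ i, L (e i) = f i := fun i => by rw [hL, hr1, one_pow, one_smul]
  constructor
  · intro v
    have h2 : L v = ∑ i, ⟪e i, v⟫ • f i := by
      conv_lhs => rw [← e.sum_repr' v]
      simp only [map_sum, map_smul, hL1]
    have h3 : ‖L v‖ ^ 2 = ‖v‖ ^ 2 := by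
      rw [h2, ← f.sum_sq_inner_right, ← e.sum_sq_inner_right v]
      simp only [f.orthonormal.inner_right_fintype]
    exact (pow_left_inj₀ (norm_nonneg _) (norm_nonneg _) two_ne_zero).1 h3
  · have hc1 : ∀ᵐ w ∂μ, ∃ c : ℝ, 1 ≤ c ∧ (c = 1 → Q w) ∧
        ∑ i, l w (e i) * ⟪u w, f i⟫ ≤ 1 - c := by
      filter_upwards [hu, hok] with w hw hc
      obtain ⟨c, z, h0, hQ, h2, -, h3⟩ := eval e f r hL hw hc
      simp only [hr1, one_pow, one_mul] at h3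
      rw [h2, f.sum_sq_inner_left, hw, one_pow, mul_one, add_zero] at h3
      exact ⟨c, h0, hQ, h3⟩
    have hneg : 0 ≤ᵐ[μ] fun w => -∑ i, l w (e i) * ⟪u w, f i⟫ := by
      filter_upwards [hc1] with w ⟨c, h0, _, h3⟩
      simp only [Pi.zero_apply]
      linarith
    have hz := (integral_eq_zero_iff_of_nonneg_ae hneg hgi.neg).1
      (by rw [integral_neg, hg0, neg_zero])
    filter_upwards [hc1, hz] with w ⟨c, h0, hQ, h3⟩ h2
    simp only [Pi.zero_apply, neg_eq_zero] at h2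
    exact hQ (by linarith)

end Pool.Agent.MP_3ee8cb_gt.DLJ
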