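import Pool.Agent.MP_3ee8cb_gt.DN.Defs
import Pool.Agent.MP_3ee8cb_gt.D3LM.Lip
import Pool.Agent.MP_3ee8cb_gt.DZJ.Dom

/-! First order information at almost every point of the barycentre map, along curves. -/

namespace Pool.Agent.MP_3ee8cb_gt.DLJ

open Set MeasureTheory Filter Topology Metric DN DZJ
open scoped RealInnerProductSpace

variable [Dim]

/-- Along some horizontal curve of unit vectors through `z` with velocity `a`, the function `U`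
stays below `s * k + N * |s|` to first order. -/
def Upp (m : MF) (U : V × V → ℝ) (z : V × V) (a : V) (k N : ℝ) : Prop :=
  ∃ (γ : ℝ → V × V) (ξ : V × V), γ 0 = z ∧ HasDerivAt γ ξ 0 ∧ (∀ s, ‖(γ s).2‖ = 1) ∧
    m.ver z ξ = 0 ∧ m.hor z ξ = a ∧
    ∀ η : ℝ, 0 < η → ∀ᶠ s in 𝓝 (0 : ℝ), U (γ s) ≤ U z + s * k + (N + η) * |s|

theorem ana {m : MF} (ok : m.OK) (jc : m.Jac) (μ : Measure V) [IsFiniteMeasure μ]
    (ac : μ ≪ volume) (hμ : ∀ᵐ w ∂μ, 1 ≤ ‖w‖ ∧ ‖w‖ ≤ 2)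
    (inv : ∀ T : V ≃ₗᵢ[ℝ] V, MeasurePreserving T μ μ) {d : V → V → ℝ} {N : V → V → ℝ}
    (hd : ∀ x e (η : ℝ), 0 < η → ∀ᶠ s in 𝓝 (0 : ℝ), d x (x + s • e) ≤ (N x e + η) * |s|)
    {u : V → V × V → ℝ} {F : V → V} (hF : LocallyLipschitz F)
    (hu : LocallyLipschitzOn {q | q.2 ≠ 0} fun q : V × V => u q.1 (F q.1, ‖q.2‖⁻¹ • q.2))
    (mov : ∀ x x' (z : V × V), ‖z.2‖ = 1 → u x z - d x x' ≤ u x' z)
    (hz : ∀ x, ∫ w, u x (F x, ‖w‖⁻¹ • w) • ‖w‖⁻¹ • w ∂μ = 0) :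
    ∀ᵐ x : V, DifferentiableAt ℝ F x ∧ ∃ l : V → V →L[ℝ] ℝ,
      (∀ e, Integrable (fun w => l w e • ‖w‖⁻¹ • w) μ ∧ ∫ w, l w e • ‖w‖⁻¹ • w ∂μ = 0) ∧
      ∀ᵐ w ∂μ, ∀ e, Upp m (u x) (F x, ‖w‖⁻¹ • w) (m.S (F x) (fderiv ℝ F x e)) (l w e)
        (N x e) := by
  set f : V × V → ℝ := fun q => u q.1 (F q.1, ‖q.2‖⁻¹ • q.2) with hf
  have r1 := D3LM.ae_diff (volume : Measure V) isOpen_univ hF.locallyLipschitzOn
  have r2 := Measure.ae_ae_of_ae_prod (D3LM.ae_diff ((volume : Measure V).prod volume)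
    (isOpen_ne.preimage continuous_snd) hu)
  filter_upwards [r1, r2] with x h1 h2
  replace h1 := h1 (mem_univ x)
  have n0 : ∀ᵐ w ∂μ, w ≠ 0 := hμ.mono fun w hw => norm_pos_iff.1 (one_pos.trans_le hw.1)
  have h3 : ∀ᵐ w ∂μ, DifferentiableAt ℝ f (x, w) := by
    filter_upwards [ac.ae_le h2, n0] with w hw w0 using hw w0
  have rot : ∀ e, ∃ O : ℝ → V ≃ₗᵢ[ℝ] V, (∀ a, O 0 a = a) ∧
      ∀ a, HasDerivAt (fun s => O s a) ((-m.om (F x) (fderiv ℝ F x e)) a) 0 := fun e => by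
    obtain ⟨O, o0, -, o1⟩ := jc.par (F x, m.S (F x) (fderiv ℝ F x e))
    refine ⟨O, o0, fun a => ?_⟩
    have := o1 a 0
    rwa [o0, MF.w, ok.zero, ok.RS] at this
  obtain ⟨l, hl⟩ : ∃ l : V → V →L[ℝ] ℝ, ∀ w e,
      l w e = fderiv ℝ f (x, w) (e, (-m.om (F x) (fderiv ℝ F x e)) w) :=
    ⟨fun w => (fderiv ℝ f (x, w)).comp ((ContinuousLinearMap.id ℝ V).prod
      (-((m.om (F x)).flip w).comp (fderiv ℝ F x))), fun w e => by simp⟩
  refine ⟨h1, l, fun e => ?_, ?_⟩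
  · obtain ⟨O, o0, o1⟩ := rot e
    simp only [hl]
    exact dom (f := f) hu x e μ hμ inv o0 o1 (fun y => hz y) h3
  filter_upwards [h3, n0] with w hw w0 e
  obtain ⟨O, o0, o1⟩ := rot e
  have c1 : HasFDerivAt f (fderiv ℝ f (x, w)) (x + (0 : ℝ) • e, O 0 w) := by
    rw [zero_smul, add_zero, o0]
    exact hw.hasFDerivAt
  have c2 := c1.comp_hasDerivAt (0 : ℝ) (curve x e o1 w)
  rw [← hl] at c2
  have c3 : HasDerivAt (fun s : ℝ => (F (x + s • e), O s (‖w‖⁻¹ • w)))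
      (fderiv ℝ F x e, (-m.om (F x) (fderiv ℝ F x e)) (‖w‖⁻¹ • w)) 0 := by
    have h4 : HasFDerivAt F (fderiv ℝ F x) (x + (0 : ℝ) • e) := by
      rw [zero_smul, add_zero]
      exact h1.hasFDerivAt
    have h5 := ((hasDerivAt_id (0 : ℝ)).smul_const e).const_add x
    rw [one_smul] at h5
    exact (h4.comp_hasDerivAt (0 : ℝ) h5).prodMk (o1 _)
  have n1 : ∀ s, ‖O s (‖w‖⁻¹ • w)‖ = 1 := fun s => by
    rw [LinearIsometryEquiv.norm_map]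
    exact norm_smul_inv_norm (𝕜 := ℝ) w0
  refine ⟨_, _, by rw [zero_smul, add_zero, o0], c3, n1, by simp [MF.ver], rfl, fun η hη => ?_⟩
  have c4 := (hasDerivAt_iff_isLittleO.1 c2).def (half_pos hη)
  filter_upwards [hd x e _ (half_pos hη), c4] with s s1 s2
  have s3 := mov x (x + s • e) (F (x + s • e), O s (‖w‖⁻¹ • w)) (n1 s)
  simp only [hf, Function.comp, LinearIsometryEquiv.norm_map, ← map_smul, zero_smul, add_zero,
    o0, sub_zero, smul_eq_mul, Real.norm_eq_abs] at s2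
  linarith [(abs_le.1 s2).2]

omit [Dim] in
/-- A lower bound that holds frequently to the left of zero bounds the slope. -/
theorem slope_le {φ : ℝ → ℝ} {a k N b : ℝ}
    (h : ∀ η : ℝ, 0 < η → ∀ᶠ s in 𝓝 (0 : ℝ), φ s ≤ a + s * k + (N + η) * |s|)
    (h' : ∀ η : ℝ, 0 < η → ∃ᶠ s in 𝓝[>] (0 : ℝ), a + (b - η) * s ≤ φ (-s)) : k ≤ N - b := by
  refine le_of_forall_pos_le_add fun η hη => ?_
  have t : Tendsto (fun s : ℝ => -s) (𝓝[>] 0) (𝓝 0) := by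
    simpa using (continuous_neg.tendsto (0 : ℝ)).mono_left nhdsWithin_le_nhds
  obtain ⟨s, ⟨h1, h2⟩, (h3 : 0 < s)⟩ := (((h' _ (half_pos hη)).and_eventually
    (t.eventually (h _ (half_pos hη)))).and_eventually self_mem_nhdsWithin).exists
  rw [abs_neg, abs_of_pos h3] at h2
  refine le_of_mul_le_mul_right ?_ h3
  nlinarith

end Pool.Agent.MP_3ee8cb_gt.DLJ
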